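import Pool.Agent.Helper20.FS.St3
import Pool.Agent.Helper20.FA.Semi

/-!
# Project SM, module UB
-/

set_option autoImplicit false

open Topology Filter

namespace Pool.Agent.Helper36.SL

open Pool.Agent.Helper20.FA Pool.Agent.Helper20.FR Pool.Agent.Helper20.FS

section cofin

attribute [local instance] IsFrechet.tag IsFrechet.csm IsFrechet.lcs IsFrechet.metr

private theorem cofinal {A : Type} [AddCommGroup A] [Module ℂ A] [TopologicalSpace A]
    [IsFrechet A] : ∃ π : ℕ → Seminorm ℂ A, (∀ i, Continuous (π i)) ∧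
      ∀ q : Seminorm ℂ A, Continuous q → ∃ i, ∀ x, q x ≤ π i x := by
  obtain ⟨V, hV⟩ := (𝓝 (0 : A)).exists_antitone_basis
  have h1 : ∀ n, ∃ v : Seminorm ℂ A, Continuous v ∧ ∀ x, v x < 1 → x ∈ V n := fun n =>
    exists_seminorm (hV.mem n)
  choose π hπ hπV using h1
  refine ⟨π, hπ, fun q hq => ?_⟩
  have h2 : {x : A | q x < 1} ∈ 𝓝 (0 : A) := by
    have h3 : IsOpen {x : A | q x < 1} := isOpen_lt hq continuous_const
    refine h3.mem_nhds ?_
    show q 0 < 1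
    rw [map_zero]
    exact one_pos
  obtain ⟨i, -, hi⟩ := hV.toHasBasis.mem_iff.1 h2
  refine ⟨i, fun x => ?_⟩
  by_contra hcon
  push Not at hcon
  obtain ⟨t, ht1, ht2⟩ := exists_between hcon
  have ht0 : 0 < t := lt_of_le_of_lt (apply_nonneg _ _) ht1
  have hsc : ∀ w : Seminorm ℂ A, w ((((t : ℝ) : ℂ))⁻¹ • x) = t⁻¹ * w x := by
    intro w
    rw [map_smul_eq_mul, norm_inv, Complex.norm_real, Real.norm_of_nonneg ht0.le]
  have h4 : π i ((((t : ℝ) : ℂ))⁻¹ • x) < 1 := by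
    rw [hsc, inv_mul_lt_iff₀ ht0, mul_one]
    exact ht1
  have h5 : q ((((t : ℝ) : ℂ))⁻¹ • x) < 1 := hi (hπV i _ h4)
  rw [hsc, inv_mul_lt_iff₀ ht0, mul_one] at h5
  linarith

end cofin

section ring

variable {A : Type} [CommRing A] [Algebra ℂ A]

/-- Cauchy sequences for `r` -/
private def CS (r : Seminorm ℂ A) (α : ℕ → A) : Prop :=
  ∀ ε : ℝ, 0 < ε → ∃ N : ℕ, ∀ k ≥ N, ∀ m ≥ N, r (α k - α m) ≤ ε

private theorem CS_bdd {r : Seminorm ℂ A} {α : ℕ → A} (h : CS r α) :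
    ∃ M : ℝ, 0 < M ∧ ∃ N : ℕ, ∀ k ≥ N, r (α k) ≤ M := by
  obtain ⟨N, hN⟩ := h 1 one_pos
  have h0 := apply_nonneg r (α N)
  refine ⟨r (α N) + 1, by linarith, N, fun k hk => ?_⟩
  have h1 := hN k hk N le_rfl
  have h2 := map_add_le_add r (α k - α N) (α N)
  rw [sub_add_cancel] at h2
  linarith

private theorem CS_const (r : Seminorm ℂ A) (a : A) : CS r (fun _ => a) := by
  intro ε hε
  refine ⟨0, fun k _ m _ => ?_⟩
  rw [sub_self, map_zero]
  exact hε.le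

private theorem CS_add {r : Seminorm ℂ A} {α β : ℕ → A} (h : CS r α) (h' : CS r β) :
    CS r (α + β) := by
  intro ε hε
  obtain ⟨N, hN⟩ := h (ε / 2) (half_pos hε)
  obtain ⟨N', hN'⟩ := h' (ε / 2) (half_pos hε)
  refine ⟨max N N', fun k hk m hm => ?_⟩
  have h1 := hN k (le_trans (le_max_left _ _) hk) m (le_trans (le_max_left _ _) hm)
  have h2 := hN' k (le_trans (le_max_right _ _) hk) m (le_trans (le_max_right _ _) hm)
  have h3 := map_add_le_add r (α k - α m) (β k - β m)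
  have e : (α + β) k - (α + β) m = α k - α m + (β k - β m) := by
    simp only [Pi.add_apply]
    ring
  rw [e]
  linarith

private theorem CS_mul {r : Seminorm ℂ A} (hr : ∀ a b, r (a * b) ≤ r a * r b) {α β : ℕ → A}
    (h : CS r α) (h' : CS r β) : CS r (α * β) := by
  intro ε hε
  obtain ⟨M, hM, N1, hN1⟩ := CS_bdd h
  obtain ⟨M', hM', N2, hN2⟩ := CS_bdd h'
  obtain ⟨N, hN⟩ := h (ε / (2 * M')) (by positivity)
  obtain ⟨N', hN'⟩ := h' (ε / (2 * M)) (by positivity)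
  refine ⟨max (max N1 N2) (max N N'), fun k hk m hm => ?_⟩
  have k1 : N1 ≤ k := le_trans (le_trans (le_max_left _ _) (le_max_left _ _)) hk
  have m2 : N2 ≤ m := le_trans (le_trans (le_max_right _ _) (le_max_left _ _)) hm
  have k3 : N ≤ k := le_trans (le_trans (le_max_left _ _) (le_max_right _ _)) hk
  have m3 : N ≤ m := le_trans (le_trans (le_max_left _ _) (le_max_right _ _)) hm
  have k4 : N' ≤ k := le_trans (le_trans (le_max_right _ _) (le_max_right _ _)) hk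
  have m4 : N' ≤ m := le_trans (le_trans (le_max_right _ _) (le_max_right _ _)) hm
  have e : (α * β) k - (α * β) m = α k * (β k - β m) + (α k - α m) * β m := by
    simp only [Pi.mul_apply]
    ring
  have a1 := map_add_le_add r (α k * (β k - β m)) ((α k - α m) * β m)
  have a2 := hr (α k) (β k - β m)
  have a3 := hr (α k - α m) (β m)
  have a4 : r (α k) * r (β k - β m) ≤ M * (ε / (2 * M)) :=
    mul_le_mul (hN1 k k1) (hN' k k4 m m4) (apply_nonneg _ _) hM.le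
  have a5 : r (α k - α m) * r (β m) ≤ ε / (2 * M') * M' :=
    mul_le_mul (hN k k3 m m3) (hN2 m m2) (apply_nonneg _ _) (by positivity)
  have a6 : M * (ε / (2 * M)) = ε / 2 := by field_simp
  have a7 : ε / (2 * M') * M' = ε / 2 := by field_simp
  rw [e]
  linarith

private theorem fast {r : Seminorm ℂ A} {α : ℕ → A} (h : ∀ k, r (α (k + 1) - α k) ≤ (1 / 2) ^ k)
    (n j : ℕ) : r (α (n + j) - α n) ≤ 2 * (1 / 2) ^ n * (1 - (1 / 2) ^ j) := by
  induction j with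
  | zero => simp
  | succ j ih =>
    have h1 := h (n + j)
    have h2 := map_add_le_add r (α (n + j + 1) - α (n + j)) (α (n + j) - α n)
    rw [sub_add_sub_cancel] at h2
    have e : 2 * (1 / 2 : ℝ) ^ n * (1 - (1 / 2) ^ (j + 1)) =
        (1 / 2) ^ (n + j) + 2 * (1 / 2) ^ n * (1 - (1 / 2) ^ j) := by
      rw [pow_add, pow_succ]
      ring
    rw [← add_assoc, e]
    linarith

private theorem fast2 {r : Seminorm ℂ A} {α : ℕ → A} (h : ∀ k, r (α (k + 1) - α k) ≤ (1 / 2) ^ k)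
    (n m : ℕ) (hm : n ≤ m) : r (α m - α n) ≤ 2 * (1 / 2) ^ n := by
  obtain ⟨j, rfl⟩ := Nat.exists_eq_add_of_le hm
  have h1 := fast h n j
  have h2 : (0 : ℝ) ≤ (1 / 2) ^ j := by positivity
  have h3 : (0 : ℝ) ≤ 2 * (1 / 2) ^ n := by positivity
  have h4 : 2 * (1 / 2 : ℝ) ^ n * (1 - (1 / 2) ^ j) = 2 * (1 / 2) ^ n - 2 * (1 / 2) ^ n * (1 / 2) ^ j := by
    ring
  have h5 := mul_nonneg h3 h2
  linarith

private theorem small (ε : ℝ) (hε : 0 < ε) (B : ℝ) : ∃ N : ℕ, ∀ k ≥ N, B * (1 / 2 : ℝ) ^ k ≤ ε := by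
  have h1 : Tendsto (fun k : ℕ => B * (1 / 2 : ℝ) ^ k) atTop (𝓝 (B * 0)) :=
    (tendsto_pow_atTop_nhds_zero_of_lt_one (by norm_num) (by norm_num)).const_mul B
  rw [mul_zero] at h1
  have h2 := h1.eventually (ge_mem_nhds hε)
  exact eventually_atTop.1 h2

private theorem CS_fast {r : Seminorm ℂ A} {α : ℕ → A}
    (h : ∀ k, r (α (k + 1) - α k) ≤ (1 / 2) ^ k) : CS r α := by
  intro ε hε
  obtain ⟨N, hN⟩ := small ε hε 4
  refine ⟨N, fun k hk m hm => ?_⟩
  have h1 := fast2 h N k hk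
  have h2 := fast2 h N m hm
  have h3 := map_sub_le_add r (α k - α N) (α m - α N)
  rw [sub_sub_sub_cancel_right] at h3
  have h4 := hN N le_rfl
  linarith

/-- the ring of Cauchy sequences -/
private def RR (r : Seminorm ℂ A) (hr : ∀ a b, r (a * b) ≤ r a * r b) : Subalgebra ℂ (ℕ → A) where
  carrier := {α | CS r α}
  mul_mem' := fun h h' => CS_mul hr h h'
  add_mem' := fun h h' => CS_add h h'
  algebraMap_mem' := fun c => CS_const r (algebraMap ℂ A c)

private theorem tendP {r p : Seminorm ℂ A} (hp : ∀ x, p x ≤ r x) {α : ℕ → A} (h : CS r α) :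
    Tendsto (fun k => p (α k)) atTop (𝓝 (limUnder atTop (fun k => p (α k)))) := by
  refine tendsto_nhds_limUnder (cauchySeq_tendsto_of_complete ?_)
  rw [Metric.cauchySeq_iff]
  intro ε hε
  obtain ⟨N, hN⟩ := h (ε / 2) (half_pos hε)
  refine ⟨N, fun k hk m hm => ?_⟩
  rw [Real.dist_eq]
  have h1 := abs_sub_map_le_sub p (α k) (α m)
  have h2 := hp (α k - α m)
  have h3 := hN k hk m hm
  linarith

/-- the limit seminorm -/
private noncomputable def PP (r p : Seminorm ℂ A) (hr : ∀ a b, r (a * b) ≤ r a * r b)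
    (hp : ∀ x, p x ≤ r x) : Seminorm ℂ (RR r hr) :=
  Seminorm.of (fun α => limUnder atTop (fun k => p (α.1 k)))
    (fun α β => le_of_tendsto_of_tendsto' (tendP hp (α + β).2)
      ((tendP hp α.2).add (tendP hp β.2)) (fun _ => map_add_le_add p _ _))
    (fun c α => tendsto_nhds_unique (tendP hp (c • α).2)
      (((tendP hp α.2).const_mul ‖c‖).congr fun k => (map_smul_eq_mul p c (α.1 k)).symm))

private theorem PP_tend (r p : Seminorm ℂ A) (hr : ∀ a b, r (a * b) ≤ r a * r b)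
    (hp : ∀ x, p x ≤ r x) (α : RR r hr) :
    Tendsto (fun k => p (α.1 k)) atTop (𝓝 (PP r p hr hp α)) := tendP hp α.2

private theorem PP_mul (r p : Seminorm ℂ A) (hr : ∀ a b, r (a * b) ≤ r a * r b)
    (hp : ∀ x, p x ≤ r x) (hpm : ∀ a b, p (a * b) ≤ p a * p b) (α β : RR r hr) :
    PP r p hr hp (α * β) ≤ PP r p hr hp α * PP r p hr hp β :=
  le_of_tendsto_of_tendsto' (PP_tend r p hr hp (α * β))
    ((PP_tend r p hr hp α).mul (PP_tend r p hr hp β)) (fun _ => hpm _ _)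

/-- constant sequences -/
private def cst (r : Seminorm ℂ A) (hr : ∀ a b, r (a * b) ≤ r a * r b) : A →ₐ[ℂ] RR r hr where
  toFun a := ⟨fun _ => a, CS_const r a⟩
  map_one' := rfl
  map_mul' _ _ := rfl
  map_zero' := rfl
  map_add' _ _ := rfl
  commutes' _ := rfl

private theorem PP_cst (r p : Seminorm ℂ A) (hr : ∀ a b, r (a * b) ≤ r a * r b)
    (hp : ∀ x, p x ≤ r x) (a : A) : PP r p hr hp (cst r hr a) = p a :=
  tendsto_nhds_unique (PP_tend r p hr hp (cst r hr a)) tendsto_const_nhds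

/-- the ideal of the bounded elements -/
private def II (r : Seminorm ℂ A) (hr : ∀ a b, r (a * b) ≤ r a * r b) (q : Seminorm ℂ A) :
    Ideal (RR r hr) where
  carrier := {α | ∃ C : ℝ, ∀ b, ∀ ε : ℝ, 0 < ε → ∃ N : ℕ, ∀ k ≥ N, r (α.1 k * b) ≤ C * q b + ε}
  zero_mem' := by
    refine ⟨0, fun b ε hε => ⟨0, fun k _ => ?_⟩⟩
    have e : ((0 : RR r hr).1 k) * b = 0 := zero_mul b
    rw [e, map_zero, zero_mul, zero_add]
    exact hε.le
  add_mem' := by
    rintro α β ⟨C, hC⟩ ⟨D, hD⟩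
    refine ⟨C + D, fun b ε hε => ?_⟩
    obtain ⟨N, hN⟩ := hC b (ε / 2) (half_pos hε)
    obtain ⟨N', hN'⟩ := hD b (ε / 2) (half_pos hε)
    refine ⟨max N N', fun k hk => ?_⟩
    have h1 := hN k (le_trans (le_max_left _ _) hk)
    have h2 := hN' k (le_trans (le_max_right _ _) hk)
    have e : (α + β).1 k * b = α.1 k * b + β.1 k * b := add_mul _ _ _
    have h3 := map_add_le_add r (α.1 k * b) (β.1 k * b)
    rw [e]
    linarith
  smul_mem' := by
    rintro c α ⟨C, hC⟩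
    obtain ⟨M, hM, N', hN'⟩ := CS_bdd c.2
    refine ⟨M * C, fun b ε hε => ?_⟩
    obtain ⟨N, hN⟩ := hC b (ε / M) (by positivity)
    refine ⟨max N N', fun k hk => ?_⟩
    have h1 := hN k (le_trans (le_max_left _ _) hk)
    have h2 := hN' k (le_trans (le_max_right _ _) hk)
    have e : (c • α).1 k * b = c.1 k * (α.1 k * b) := mul_assoc _ _ _
    have h3 := hr (c.1 k) (α.1 k * b)
    have h4 : r (c.1 k) * r (α.1 k * b) ≤ M * r (α.1 k * b) :=
      mul_le_mul_of_nonneg_right h2 (apply_nonneg _ _)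
    have h5 : M * r (α.1 k * b) ≤ M * (C * q b + ε / M) := mul_le_mul_of_nonneg_left h1 hM.le
    have h6 : M * (C * q b + ε / M) = M * C * q b + ε := by field_simp
    rw [e]
    linarith

private theorem mem_II {r : Seminorm ℂ A} {hr : ∀ a b, r (a * b) ≤ r a * r b} {q : Seminorm ℂ A}
    (α : RR r hr) : α ∈ II r hr q ↔
      ∃ C : ℝ, ∀ b, ∀ ε : ℝ, 0 < ε → ∃ N : ℕ, ∀ k ≥ N, r (α.1 k * b) ≤ C * q b + ε := Iff.rfl

end ring

theorem hUB (hGE : StGE) : StUB := by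
  intro A _ _ _ _ _ h1 h2 p hp
  obtain ⟨π, hπ, hπq⟩ := cofinal (A := A)
  have claim : ∃ q : Seminorm ℂ A, Continuous q ∧ ∀ r : Seminorm ℂ A, Good r →
      (∀ x, p x ≤ r x) → ∀ χ : A →ₐ[ℂ] ℂ, (∀ a, ‖χ a‖ ≤ p a) →
        ∃ (α : ℕ → A) (C : ℝ), QB q r C α ∧ ∀ k, ‖χ (α k) - 1‖ ≤ (1 / 2) ^ k := by
    by_contra hcon
    have h3 : ∀ i, ∃ (r : Seminorm ℂ A) (χ : A →ₐ[ℂ] ℂ), Good r ∧
        (∀ x, p x ≤ r x) ∧ (∀ a, ‖χ a‖ ≤ p a) ∧
        ¬ ∃ (α : ℕ → A) (C : ℝ), QB (π i) r C α ∧ ∀ k, ‖χ (α k) - 1‖ ≤ (1 / 2) ^ k := by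
      intro i
      by_contra hi
      apply hcon
      refine ⟨π i, hπ i, fun r hr hpr χ hχ => ?_⟩
      by_contra hno
      exact hi ⟨r, χ, hr, hpr, hχ, hno⟩
    choose r χ hr hpr hχ hno using h3
    obtain ⟨q, hq, H⟩ := h2 χ p hp.1 hχ
    obtain ⟨i, hi⟩ := hπq q hq
    obtain ⟨α, C, hC, hα⟩ := H (r i) (hr i) (hpr i) i
    refine hno i ⟨α, |C|, ⟨hC.1, fun k b => ?_⟩, hα⟩
    have a1 := hC.2 k b
    have a2 : C * q b ≤ |C| * q b := mul_le_mul_of_nonneg_right (le_abs_self _) (apply_nonneg _ _)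
    have a3 : |C| * q b ≤ |C| * π i b := mul_le_mul_of_nonneg_left (hi b) (abs_nonneg _)
    linarith
  obtain ⟨q, hq, H⟩ := claim
  refine ⟨q, hq, fun r hr => ?_⟩
  have hc : Continuous (r + p : Seminorm ℂ A) := by
    have : ⇑(r + p : Seminorm ℂ A) = fun x => r x + p x := rfl
    rw [this]
    exact hr.1.add hp.1
  obtain ⟨r', hr', hle⟩ := h1 (r + p) hc
  have hle' : ∀ x, r x + p x ≤ r' x := hle
  have hrr : ∀ x, r x ≤ r' x := fun x => by
    have := apply_nonneg p x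
    linarith [hle' x]
  have hpr : ∀ x, p x ≤ r' x := fun x => by
    have := apply_nonneg r x
    linarith [hle' x]
  have hex : ∃ α ∈ II r' hr'.2 q, PP r' p hr'.2 hpr (1 - α) < 1 / 2 := by
    by_contra hno
    have h4 : ∀ α ∈ II r' hr'.2 q, 1 / 2 ≤ PP r' p hr'.2 hpr (1 - α) := by
      intro α hα
      by_contra hlt
      push Not at hlt
      exact hno ⟨α, hα, hlt⟩
    obtain ⟨χ', hχ', hχI⟩ := hGE (RR r' hr'.2) (PP r' p hr'.2 hpr)
      (PP_mul r' p hr'.2 hpr hp.2) (II r' hr'.2 q) h4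
    obtain ⟨χ, hχe⟩ : ∃ χ : A →ₐ[ℂ] ℂ, χ = χ'.comp (cst r' hr'.2) := ⟨_, rfl⟩
    have hχ : ∀ a, ‖χ a‖ ≤ p a := by
      intro a
      rw [hχe, ← PP_cst r' p hr'.2 hpr a]
      exact hχ' _
    obtain ⟨α, C, hQ, hα⟩ := H r' hr' hpr χ hχ
    have hCS : CS r' α := CS_fast hQ.1
    have hI : (⟨α, hCS⟩ : RR r' hr'.2) ∈ II r' hr'.2 q := by
      rw [mem_II]
      refine ⟨C, fun b ε hε => ?_⟩
      obtain ⟨N, hN⟩ := small ε hε (r' b)
      refine ⟨N, fun k hk => ?_⟩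
      have a1 := hQ.2 k b
      have a2 := hN k hk
      show r' (α k * b) ≤ C * q b + ε
      linarith
    have h0 := hχI _ hI
    have hk : ∀ k, ‖χ (α k)‖ ≤ 2 * (1 / 2) ^ k := by
      intro k
      have a1 : χ (α k) = -χ' ((⟨α, hCS⟩ : RR r' hr'.2) - cst r' hr'.2 (α k)) := by
        rw [map_sub, h0, hχe]
        show χ' (cst r' hr'.2 (α k)) = _
        ring
      rw [a1, norm_neg]
      refine (hχ' _).trans ?_
      refine le_of_tendsto (PP_tend r' p hr'.2 hpr _) ?_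
      refine eventually_atTop.2 ⟨k, fun m hm => ?_⟩
      show p (α m - α k) ≤ _
      exact (hpr _).trans (fast2 hQ.1 k m hm)
    have b1 := hk 3
    have b2 := hα 3
    have b3 : (1 : ℝ) = ‖χ (α 3) - (χ (α 3) - 1)‖ := by
      rw [sub_sub_cancel, norm_one]
    have b4 := norm_sub_le (χ (α 3)) (χ (α 3) - 1)
    rw [← b3] at b4
    norm_num at b1 b2
    linarith
  obtain ⟨α, hα, hlt⟩ := hex
  obtain ⟨C, hC⟩ := (mem_II α).1 hα
  have hev : ∀ᶠ k in atTop, p (1 - α.1 k) < 1 / 2 :=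
    (PP_tend r' p hr'.2 hpr (1 - α)).eventually (gt_mem_nhds hlt)
  obtain ⟨N0, hN0⟩ := eventually_atTop.1 hev
  have hN : ∀ i : ℕ, ∃ N : ℕ, ∀ k ≥ N, ∀ m ≥ N, r' (α.1 k - α.1 m) ≤ (1 / 2) ^ i :=
    fun i => α.2 _ (by positivity)
  choose N hN using hN
  obtain ⟨φ, hφ⟩ : ∃ φ : ℕ → ℕ, φ = fun k => N0 + ∑ i ∈ Finset.range (k + 1), N i := ⟨_, rfl⟩
  have hφ0 : ∀ k, N0 ≤ φ k := fun k => by
    rw [hφ]
    exact Nat.le_add_right _ _
  have hφN : ∀ k i, i ≤ k → N i ≤ φ k := by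
    intro k i hik
    rw [hφ]
    have := Finset.single_le_sum (f := N) (fun _ _ => Nat.zero_le _)
      (Finset.mem_range.2 (Nat.lt_succ_of_le hik))
    exact this.trans (Nat.le_add_left _ _)
  refine ⟨fun k => α.1 (φ k), C, ⟨fun k => ?_, fun k b => ?_⟩, fun k => hN0 _ (hφ0 k)⟩
  · exact (hrr _).trans (hN k _ (hφN (k + 1) k (Nat.le_succ k)) _ (hφN k k le_rfl))
  · refine le_of_forall_pos_le_add fun ε hε => ?_
    obtain ⟨N1, hN1⟩ := hC b ε hε
    obtain ⟨m, hm⟩ : ∃ m, m = max N1 (N k) := ⟨_, rfl⟩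
    have m1 : N1 ≤ m := by rw [hm]; exact le_max_left _ _
    have m2 : N k ≤ m := by rw [hm]; exact le_max_right _ _
    have a1 := hN1 m m1
    have a2 := hrr (α.1 m * b)
    have a3 := map_add_le_add r (α.1 m * b) ((α.1 (φ k) - α.1 m) * b)
    have e : α.1 m * b + (α.1 (φ k) - α.1 m) * b = α.1 (φ k) * b := by ring
    rw [e] at a3
    have a4 := hr.2 (α.1 (φ k) - α.1 m) b
    have a5 : r (α.1 (φ k) - α.1 m) * r b ≤ (1 / 2) ^ k * r b :=
      mul_le_mul_of_nonneg_right ((hrr _).trans (hN k _ (hφN k k le_rfl) _ m2)) (apply_nonneg _ _)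
    linarith

end Pool.Agent.Helper36.SL
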